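import Mathlib

set_option autoImplicit false

namespace Pool.Agent.Results.MP_472c23_co.Ten

open Polynomial

noncomputable def om (m : ℕ) : ℤ[X] := 1 - X ^ m

noncomputable def qf (m : ℕ) : ℤ[X] := ∏ i ∈ Finset.range m, om (i + 1)

noncomputable def numF (n : ℕ) : ℤ[X] := qf (6 * n) * qf n

noncomputable def denF (n : ℕ) : ℤ[X] := qf (3 * n) * qf (2 * n) ^ 2

def qv (m : ℕ) : ℤ := ∏ i ∈ Finset.range m, (1 - 2 ^ (i + 1))

theorem ev_om (m : ℕ) : eval 2 (om m) = 1 - 2 ^ m := by simp [om]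

theorem ev_qf (m : ℕ) : eval 2 (qf m) = qv m := by
  simp only [qf, qv, eval_prod, ev_om]

theorem result : ∃ n : ℕ, 2 ≤ n ∧
    (¬ ∃ P : ℤ[X], P * (om (2 * n + 3) * om (2 * n + 5) * om (2 * n + 7) * denF n) =
      om 3 * om 5 * om 7 * numF n) ∧
    (¬ ∃ P : ℤ[X],
      P * (om (2 * n + 1) * om (2 * n + 3) * om (2 * n + 5) * om (2 * n + 7) * denF n) =
      om 3 ^ 2 * om 5 * om 7 * numF n) := by
  refine ⟨10, by norm_num, ?_, ?_⟩
  · rintro ⟨P, h⟩
    have h2 := congrArg (eval 2) h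
    simp only [numF, denF, eval_mul, eval_pow, ev_om, ev_qf] at h2
    exact absurd (Dvd.intro_left _ h2) (by decide +kernel)
  · rintro ⟨P, h⟩
    have h2 := congrArg (eval 2) h
    simp only [numF, denF, eval_mul, eval_pow, ev_om, ev_qf] at h2
    exact absurd (Dvd.intro_left _ h2) (by decide +kernel)

end Pool.Agent.Results.MP_472c23_co.Ten
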